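import Pool.Agent.Mg.Ffc94d9.Gad060b

set_option autoImplicit false

namespace Pool.Agent.MP_fc94d9_co.Old.AllLargeIntegers

/-- Every finite colouring of the plane has monochromatic pairs at all large integer distances. -/
theorem result (k : ℕ) (c : EuclideanSpace ℝ (Fin 2) → Fin k) :
    ∃ N : ℕ, ∀ n : ℕ, N ≤ n → ∃ x y : EuclideanSpace ℝ (Fin 2), dist x y = n ∧ c x = c y :=
  Pool.Agent.MP_fc94d9_co.mono_nat c

end Pool.Agent.MP_fc94d9_co.Old.AllLargeIntegers
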